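import Pool.Agent.N870.EC.Stm
import Pool.Agent.Z864.SX.SelH
import Pool.Agent.Y833.SX.Sel

/-!
# Project EC (helper870), part SELGE: the pairs of square classes inject into the 2-Selmer group
-/

set_option autoImplicit false

namespace Pool.Agent.N426.EC

open Pool.Agent.TH841.SH
open Pool.Agent.W307.SE (Sel SN Loc)
open Pool.Agent.Y667.SX (Sel2H)
open Pool.Agent.W262.SH (QB)

open scoped Classical

/-- translation -/
theorem loc_tr {K : Type} [Field K] {a b c d1 d2 : ℤ} (h : Loc K (b - a) (c - a) d1 d2) :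
    LocC K a b c d1 d2 := by
  obtain ⟨x, y, hy, hxy, h1, h2⟩ := h
  refine ⟨x + a, y, hy, ?_, ?_, ?_⟩
  · rw [hxy]
    push_cast
    ring
  · have e1 : (x + (a : K) - a) * d1 = x * d1 := by ring
    rw [e1]
    exact h1
  · have e1 : (x + (a : K) - b) * d2 = (x - ((b - a : ℤ) : K)) * d2 := by
      push_cast
      ring
    rw [e1]
    exact h2

/-- **EC/SELGE** -/
theorem t_SELGE : Pool.Agent.N870.EC.S_SELGE := by
  intro W a b c hab hac hbc h hfin
  obtain ⟨E⟩ := Pool.Agent.Y833.SX.sel2H_card h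
  have hfin' : Finite (selHom W) := Finite.of_equiv _ E
  have hex : ∀ d : Sel (b - a) (c - a), ∃ f : selHom W,
      (∀ s : QB, s ^ 2 = (d.1.1 : ℤ) → ∀ σ : QB ≃ₐ[ℚ] QB, σ s = s ↔
        IsX (W.baseChange QB) (algebraMap ℚ QB a) (f.1 σ)) ∧
      ∀ s : QB, s ^ 2 = (d.1.2 : ℤ) → ∀ σ : QB ≃ₐ[ℚ] QB, σ s = s ↔
        IsX (W.baseChange QB) (algebraMap ℚ QB b) (f.1 σ) := by
    rintro ⟨d, hd1, hd2, hdR, hdp⟩
    obtain ⟨f, hf, hf1, hf2⟩ := Pool.Agent.Z864.SX.exists_hom h hab hac hbc hd1.ne_zero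
      hd2.ne_zero (loc_tr hdR) (fun p _ => loc_tr (hdp p))
    exact ⟨⟨f, hf⟩, hf1, hf2⟩
  choose Ψ hΨ1 hΨ2 using hex
  have hinj : Function.Injective Ψ := by
    intro d d' hdd
    apply Subtype.ext
    apply Prod.ext
    · apply Pool.Agent.Z864.SX.cls_eq d.2.1 d'.2.1
      intro s t hs ht σ
      rw [hΨ1 d s hs σ, hΨ1 d' t ht σ, hdd]
    · apply Pool.Agent.Z864.SX.cls_eq d.2.2.1 d'.2.2.1
      intro s t hs ht σ
      rw [hΨ2 d s hs σ, hΨ2 d' t ht σ, hdd]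
  have h1 : (Sel (b - a) (c - a)).ncard ≤ Nat.card (Sel2H W) := by
    rw [Nat.card_congr E, ← Nat.card_coe_set_eq]
    exact Nat.card_le_card_of_injective Ψ hinj
  show (((Sel (b - a) (c - a)).ncard : ℕ) : ℝ) ≤ _
  exact_mod_cast h1

end Pool.Agent.N426.EC
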